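import Pool.Agent.N922.PY.Stm

/-!
Project PY of helper922: a point is not infinitely 2-divisible over `ℚ_2` (helper386).
-/

set_option autoImplicit false
set_option linter.all false

open Polynomial
open scoped Classical

namespace Pool.Agent.N386.PY.LOC

open Pool.Agent.Y723.HJ
open Pool.Agent.N922.PY

theorem alg_inj : Function.Injective (algebraMap ℤ_[2] ℚ_[2]) :=
  IsFractionRing.injective ℤ_[2] ℚ_[2]

theorem toK_inj (f : ℤ_[2][X]) : Function.Injective (toK f) := by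
  intro z w h
  have h1 := congrArg QuadraticAlgebra.re h
  have h2 := congrArg QuadraticAlgebra.im h
  exact QuadraticAlgebra.ext (Polynomial.map_injective _ alg_inj h1)
    (Polynomial.map_injective _ alg_inj h2)

theorem norm_qmap {R S : Type} [CommRing R] [CommRing S] (φ : R →+* S) (f : R[X])
    (z : QuadraticAlgebra R[X] f 0) : (qmap φ f z).norm = z.norm.map φ := by
  rw [QuadraticAlgebra.norm_def, QuadraticAlgebra.norm_def]
  simp only [qmap, RingHom.coe_mk, MonoidHom.coe_mk, OneHom.coe_mk, Polynomial.map_sub,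
    Polynomial.map_add, Polynomial.map_mul, Polynomial.map_zero]

theorem toZ_zero {a : ℤ_[2]} : PadicInt.toZMod (p := 2) a = 0 ↔ ¬ IsUnit a := by
  rw [← RingHom.mem_ker, PadicInt.ker_toZMod, IsLocalRing.mem_maximalIdeal, mem_nonunits_iff]

theorem exists_unit {A : ℤ_[2][X]} (h : r2 A ≠ 0) : ∃ i, IsUnit (A.coeff i) := by
  by_contra hcon
  push Not at hcon
  apply h
  ext i
  rw [Polynomial.coeff_map, Polynomial.coeff_zero]
  exact toZ_zero.2 (hcon i)

theorem unit_of {A W : ℤ_[2][X]} {a : ℚ_[2]}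
    (h : A.map (algebraMap ℤ_[2] ℚ_[2]) = C a * W.map (algebraMap ℤ_[2] ℚ_[2]))
    (hA : r2 A ≠ 0) (hW : r2 W ≠ 0) : ∃ γ : ℤ_[2], IsUnit γ ∧ A = C γ * W := by
  have hc : ∀ i, ((A.coeff i : ℤ_[2]) : ℚ_[2]) = a * ((W.coeff i : ℤ_[2]) : ℚ_[2]) := by
    intro i
    have := congrArg (fun P : ℚ_[2][X] => P.coeff i) h
    simp only [Polynomial.coeff_map, Polynomial.coeff_C_mul] at this
    exact this
  obtain ⟨i, hi⟩ := exists_unit hA
  obtain ⟨j, hj⟩ := exists_unit hW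
  have h1 : ‖a‖ ≤ 1 := by
    have h2 := congrArg norm (hc j)
    rw [norm_mul] at h2
    have h3 : ‖((W.coeff j : ℤ_[2]) : ℚ_[2])‖ = 1 := PadicInt.isUnit_iff.1 hj
    rw [h3, mul_one] at h2
    rw [← h2]
    exact (A.coeff j).2
  have h2 : 1 ≤ ‖a‖ := by
    have h2 := congrArg norm (hc i)
    rw [norm_mul] at h2
    have h3 : ‖((A.coeff i : ℤ_[2]) : ℚ_[2])‖ = 1 := PadicInt.isUnit_iff.1 hi
    rw [h3] at h2
    rw [h2]
    exact mul_le_of_le_one_right (norm_nonneg a) (W.coeff i).2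
  refine ⟨⟨a, h1⟩, PadicInt.isUnit_iff.2 (le_antisymm h1 h2), ?_⟩
  apply Polynomial.map_injective _ alg_inj
  rw [h, Polynomial.map_mul, Polynomial.map_C]
  rfl

section

variable {L : Type} [Field L] {g : L[X]} [HF g]

theorem cl_pow {D : Ideal (CR g)} (hD : D ≠ ⊥) (n : ℕ) : cl (D ^ n) = cl D ^ n := by
  induction n with
  | zero =>
    rw [pow_zero, pow_zero, Ideal.one_eq_top, ← Ideal.span_singleton_one]
    exact cl_span one_ne_zero
  | succ n ih => rw [pow_succ, pow_succ, cl_mul (pow_ne_zero n hD) hD, ih]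

theorem nm_pow {D : Ideal (CR g)} (hD : D ≠ ⊥) (n : ℕ) : nm (D ^ n) = nm D ^ n := by
  induction n with
  | zero =>
    rw [pow_zero, pow_zero]
    apply nm_eq (I := (1 : Ideal (CR g))) one_ne_zero monic_one
    have h1 : (1 : Ideal (CR g)) = Ideal.span {1} := by
      rw [Ideal.one_eq_top, Ideal.span_singleton_one]
    have h2 : CC g 1 = 1 := map_one _
    rw [h1, bar_span, star_one, h2, Ideal.span_singleton_mul_span_singleton, one_mul]
  | succ n ih => rw [pow_succ, pow_succ, nm_mul (pow_ne_zero n hD) hD, ih]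

end

theorem core (h1 : S_NIC) (h2 : S_GAU) (f : ℤ_[2][X]) [HF (fK f)] (hf : Good f) (x y : ℚ_[2])
    (hxy : y ^ 2 = (fK f).eval x) (k : ℕ) (d : ClassGroup (CR (fK f)))
    (hd : d ^ 2 ^ (k + 1) = cl (mi (fK f) (X - C x) (C y)))
    (V : ℤ_[2][X]) (b : ℚ_[2]) (hb : b ≠ 0) (hV : r2 V ≠ 0)
    (hVx : V.map (algebraMap ℤ_[2] ℚ_[2]) = C b * (X - C x)) :
    ∃ (U : ℤ_[2][X]) (γ : ℤ_[2]) (F h p : AA f), U.Monic ∧ IsUnit γ ∧
      (⟨U, 0⟩ + 2 * p : AA f) ^ 2 ^ k * ⟨V, 0⟩ = F * h ∧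
      F.norm = C γ * U ^ 2 ^ (k + 1) * V := by
  obtain ⟨D, U, p, hD, hDd, hU, hn, hp⟩ := h1 f hf d
  obtain ⟨g1, g2, g3⟩ := h2 f hf.mon hf.deg
  have hdiv : (X - C x) ∣ fK f - (C y) ^ 2 := by
    rw [dvd_iff_isRoot, IsRoot.def, eval_sub, eval_pow, eval_C, hxy, sub_self]
  have hdiv' : (X - C x) ∣ fK f - (-C y) ^ 2 := by
    rw [neg_sq]
    exact hdiv
  have hE : mi (fK f) (X - C x) (C y) ≠ ⊥ := mi_ne (X_sub_C_ne_zero x)
  have hE' : mi (fK f) (X - C x) (-C y) ≠ ⊥ := mi_ne (X_sub_C_ne_zero x)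
  have hDn : D ^ 2 ^ (k + 1) ≠ ⊥ := pow_ne_zero _ hD
  have hI : D ^ 2 ^ (k + 1) * mi (fK f) (X - C x) (-C y) ≠ ⊥ := mul_ne_bot hDn hE'
  have hcl : cl (D ^ 2 ^ (k + 1) * mi (fK f) (X - C x) (-C y)) = 1 := by
    rw [cl_mul hDn hE', cl_pow hD, hDd, ← bar_mi, cl_bar hE, hd, mul_inv_cancel]
  rw [cl_def hI, ClassGroup.mk0_eq_one_iff] at hcl
  obtain ⟨F0, hF0⟩ := hcl
  have hF0 : D ^ 2 ^ (k + 1) * mi (fK f) (X - C x) (-C y) = Ideal.span {F0} := hF0
  have hF00 : F0 ≠ 0 := by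
    rintro rfl
    apply hI
    rw [hF0]
    simp
  obtain ⟨c, F, hc, hF2, hF⟩ := g2 F0 hF00
  have hcu : IsUnit (CC (fK f) (C c)) :=
    (isUnit_C.2 (isUnit_iff_ne_zero.2 hc)).map (algebraMap ℚ_[2][X] (CR (fK f)))
  have hsp : Ideal.span {toK f F} = D ^ 2 ^ (k + 1) * mi (fK f) (X - C x) (-C y) := by
    rw [hF, hF0]
    exact Ideal.span_singleton_mul_left_unit hcu F0
  have hFne : toK f F ≠ 0 := by
    rw [hF]
    exact mul_ne_zero hcu.ne_zero hF00
  -- the norm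
  have hnorm := (nm_span hFne).1
  rw [hsp, nm_mul hDn hE', nm_pow hD, nm_mi (monic_X_sub_C x) hdiv', hn, norm_qmap] at hnorm
  obtain ⟨a, ha⟩ : ∃ a, a = (-1) ^ (F.norm.map (algebraMap ℤ_[2] ℚ_[2])).natDegree *
    lead (toK f F) ^ 2 := ⟨_, rfl⟩
  rw [← ha] at hnorm
  have hr2F : r2 F.norm ≠ 0 := by
    intro h
    have h3 : (to2 f F).norm = 0 := by
      rw [norm_qmap]
      exact h
    have h4 : to2 f F * star (to2 f F) = 0 := by
      rw [← QuadraticAlgebra.algebraMap_norm_eq_mul_star, h3, map_zero]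
    rcases g1 _ _ h4 with h5 | h5
    · exact hF2 h5
    · apply hF2
      rw [← star_star (to2 f F), h5, star_zero]
  have hr2W : r2 (U ^ 2 ^ (k + 1) * V) ≠ 0 := by
    rw [r2, Polynomial.map_mul, Polynomial.map_pow]
    exact mul_ne_zero (pow_ne_zero _ (hU.map _).ne_zero) hV
  obtain ⟨γ, hγ, hγ2⟩ := unit_of (A := F.norm) (W := U ^ 2 ^ (k + 1) * V) (a := a * b⁻¹) (by
    rw [hnorm, Polynomial.map_mul, Polynomial.map_pow, hVx, C_mul]
    have h5 : (C b⁻¹ : ℚ_[2][X]) * C b = 1 := by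
      rw [← C_mul, inv_mul_cancel₀ hb, C_1]
    calc C a * (map (algebraMap ℤ_[2] ℚ_[2]) U ^ 2 ^ (k + 1) * (X - C x)) =
        C a * (C b⁻¹ * C b) * (map (algebraMap ℤ_[2] ℚ_[2]) U ^ 2 ^ (k + 1) * (X - C x)) := by
          rw [h5, mul_one]
      _ = _ := by ring) hr2F hr2W
  -- the function
  have hmem : toK f ((⟨U, 0⟩ + 2 * p : AA f) ^ 2 ^ k * ⟨V, 0⟩) ∈ Ideal.span {toK f F} := by
    rw [hsp, map_mul, map_pow]
    refine Ideal.mul_mem_mul ?_ ?_
    · have h3 := Ideal.pow_mem_pow hp (2 ^ k)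
      rw [← pow_mul] at h3
      have h4 : 2 * 2 ^ k = 2 ^ (k + 1) := by ring
      rw [h4] at h3
      exact h3
    · have h3 : toK f ⟨V, 0⟩ = CC (fK f) (V.map (algebraMap ℤ_[2] ℚ_[2])) := by
        refine QuadraticAlgebra.ext rfl ?_
        exact Polynomial.map_zero _
      rw [h3]
      exact mi_C_mem ⟨C b, by rw [hVx, mul_comm]⟩
  rw [Ideal.mem_span_singleton'] at hmem
  obtain ⟨h0, hh0⟩ := hmem
  rw [mul_comm] at hh0
  obtain ⟨h', hh'⟩ := g3 F _ h0 hF2 hh0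
  refine ⟨U, γ, F, h', p, hU, hγ, ?_, ?_⟩
  · apply toK_inj f
    rw [map_mul (toK f) F, hh', hh0]
  · rw [hγ2, mul_assoc]

/-- the valuation of `x` -/
theorem val_even (f : ℤ_[2][X]) (hf : Good f) (x y : ℚ_[2]) (hxy : y ^ 2 = (fK f).eval x)
    (hx : 1 < ‖x‖) : ∃ j : ℕ, 1 ≤ j ∧ x.valuation = -(2 * (j : ℤ)) := by
  have hx0 : x ≠ 0 := by
    rintro rfl
    rw [norm_zero] at hx
    linarith
  have hxn : 0 < ‖x‖ := by linarith
  -- the norm of `f(x)`
  have hev : (fK f).eval x = x ^ 5 + ∑ i ∈ Finset.range 5, ((f.coeff i : ℤ_[2]) : ℚ_[2]) * x ^ i := by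
    have hdeg : (fK f).natDegree = 5 := by
      rw [(hf.mon.natDegree_map _), hf.deg]
    rw [eval_eq_sum_range, hdeg, Finset.sum_range_succ, add_comm]
    congr 1
    · rw [Polynomial.coeff_map]
      have : f.coeff 5 = 1 := by
        have := hf.mon.coeff_natDegree
        rwa [hf.deg] at this
      rw [this, map_one, one_mul]
    · refine Finset.sum_congr rfl fun i _ => ?_
      rw [Polynomial.coeff_map]
      rfl
  have hsum : ‖∑ i ∈ Finset.range 5, ((f.coeff i : ℤ_[2]) : ℚ_[2]) * x ^ i‖ < ‖x ^ 5‖ := by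
    obtain ⟨i, hi, h3⟩ := IsUltrametricDist.exists_norm_finset_sum_le_of_nonempty
      (t := Finset.range 5) ⟨0, Finset.mem_range.2 (by norm_num)⟩
      (fun i => ((f.coeff i : ℤ_[2]) : ℚ_[2]) * x ^ i)
    refine h3.trans_lt ?_
    rw [norm_mul, norm_pow, norm_pow]
    rw [Finset.mem_range] at hi
    calc ‖((f.coeff i : ℤ_[2]) : ℚ_[2])‖ * ‖x‖ ^ i ≤ 1 * ‖x‖ ^ i :=
          mul_le_mul_of_nonneg_right (f.coeff i).2 (by positivity)
      _ = ‖x‖ ^ i := one_mul _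
      _ < ‖x‖ ^ 5 := pow_lt_pow_right₀ hx hi
  have h1 : ‖y‖ ^ 2 = ‖x‖ ^ 5 := by
    rw [← norm_pow, hxy, hev, ← norm_pow]
    rw [IsUltrametricDist.norm_add_eq_max_of_norm_ne_norm hsum.ne', max_eq_left hsum.le]
  have hy0 : y ≠ 0 := by
    rintro rfl
    rw [norm_zero] at h1
    have : 0 < ‖x‖ ^ 5 := by positivity
    rw [← h1] at this
    norm_num at this
  rw [Padic.norm_eq_zpow_neg_valuation hx0, Padic.norm_eq_zpow_neg_valuation hy0,
    ← zpow_natCast, ← zpow_natCast, ← zpow_mul, ← zpow_mul] at h1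
  have h2 := zpow_right_injective₀ (a := ((2 : ℕ) : ℝ)) (by norm_num) (by norm_num) h1
  have h3 : x.valuation < 0 := by
    by_contra hcon
    push Not at hcon
    have := (Padic.norm_le_one_iff_val_nonneg x).2 hcon
    linarith
  push_cast at h2
  refine ⟨(-x.valuation / 2).toNat, by omega, by omega⟩

theorem loc (h1 : S_NIC) (h2 : S_GAU) (h3 : S_FIN) (h4 : S_FIN0) : S_LOC := by
  intro f _ hf x y hxy
  by_cases hx : ‖x‖ ≤ 1
  · refine ⟨1, fun d hd => ?_⟩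
    obtain ⟨x0, hx0⟩ : ∃ x0 : ℤ_[2], x0 = ⟨x, hx⟩ := ⟨_, rfl⟩
    obtain ⟨U, γ, F, h, p, hU, hγ, e1, e2⟩ := core h1 h2 f hf x y hxy 0 d hd (X - C x0) 1
      one_ne_zero (by
        rw [r2, Polynomial.map_sub, Polynomial.map_X, Polynomial.map_C]
        exact X_sub_C_ne_zero _) (by
        rw [Polynomial.map_sub, Polynomial.map_X, Polynomial.map_C, C_1, one_mul, hx0]
        rfl)
    refine h4 f hf.mon hf.deg U x0 γ F h p hU hγ ?_ ?_
    · rw [pow_zero, pow_one] at e1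
      exact e1
    · rw [zero_add, pow_one] at e2
      exact e2
  · push Not at hx
    obtain ⟨j, hj, hv⟩ := val_even f hf x y hxy hx
    have hx0 : x ≠ 0 := by
      rintro rfl
      rw [norm_zero] at hx
      linarith
    have hxn : 0 < ‖x‖ := by linarith
    have hz1 : ‖x⁻¹‖ ≤ 1 := by
      rw [norm_inv]
      exact inv_le_one_of_one_le₀ hx.le
    obtain ⟨z, hz⟩ : ∃ z : ℤ_[2], (z : ℚ_[2]) = x⁻¹ := ⟨⟨x⁻¹, hz1⟩, rfl⟩
    have hz0 : z ≠ 0 := by
      rintro rfl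
      have : (0 : ℚ_[2]) = x⁻¹ := hz
      exact inv_ne_zero hx0 this.symm
    have hzv : (z.valuation : ℤ) = 2 * j := by
      rw [← PadicInt.valuation_coe, hz, Padic.valuation_inv, hv]
      ring
    have hzv' : z.valuation = 2 * j := by exact_mod_cast hzv
    have hz2 := PadicInt.unitCoeff_spec hz0
    rw [hzv', mul_comm] at hz2
    have hz3 : PadicInt.toZMod (p := 2) z = 0 := by
      rw [toZ_zero, PadicInt.isUnit_iff]
      intro h
      have h5 : ‖x⁻¹‖ = 1 := by rw [← hz]; exact h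
      rw [norm_inv, inv_eq_one] at h5
      linarith
    refine ⟨j + 1, fun d hd => ?_⟩
    obtain ⟨U, γ, F, h, p, hU, hγ, e1, e2⟩ := core h1 h2 f hf x y hxy j d hd (1 - C z * X)
      (-x⁻¹) (neg_ne_zero.2 (inv_ne_zero hx0)) (by
        rw [r2, Polynomial.map_sub, Polynomial.map_mul, Polynomial.map_X, Polynomial.map_C, hz3,
          Polynomial.map_one, C_0, zero_mul, sub_zero]
        exact one_ne_zero) (by
        rw [Polynomial.map_sub, Polynomial.map_mul, Polynomial.map_X, Polynomial.map_C,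
          Polynomial.map_one]
        have e3 : (algebraMap ℤ_[2] ℚ_[2]) z = x⁻¹ := hz
        have e4 : (C x⁻¹ : ℚ_[2][X]) * C x = 1 := by
          rw [← C_mul, inv_mul_cancel₀ hx0, C_1]
        rw [e3, C_neg]
        linear_combination -e4)
    exact h3 f hf.mon hf.deg U j z γ _ F h p hU hj hγ (PadicInt.unitCoeff hz0).isUnit hz2 e1 e2

end Pool.Agent.N386.PY.LOC
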